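import Pool.Agent.Lib_MP_75bf3e_hb.Final

/-!
# A lower bound for the constant of Q1 at `p = 2` by values of Hecke L-functions

`prim m = 1 + (2 + 2 i)(m.1 + m.2 i)` runs over the primary Gaussian integers, and `primSum n θ X` is
the sum of `(conj u / u) ^ n / |u| ^ 2 * e(θ.1 m.1 + θ.2 m.2)`, `u = prim m`, over `|u| ≤ X`; for `θ = 0`
its limit is the value at `s = 1` of the Hecke L-function of the character `(u) ↦ (conj u / u) ^ n`.

If the weighted inequality of the frozen statement holds for `p = 2` and the exponent `n` with the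
constant `A` (in the place of `C`) then, with an absolute constant `C`,

* for all finite disjoint sets `T`, `S` of complex numbers with mutual distances at least `1` the matrix
  `(conj (t - s) / (t - s)) ^ n / |t - s| ^ 2` has norm at most `C (1 + A ^ 2 (1 + log n)) ^ (1 / 2)` from
  `l^2(S)` to `l^2(T)`;
* all sums `primSum n θ X` and the limit have absolute value at most `C (1 + A (1 + log n) ^ (1 / 2))`.
-/

set_option autoImplicit false

namespace Pool.Agent.Results.MP_75bf3e_an.HeckeBarrier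

open Pool.MP_75bf3e_an.HB Filter Topology

theorem result :
    ∃ C : ℝ, 0 < C ∧ ∀ n : ℕ, 1 ≤ n → ∃ L : ℂ, Tendsto (primSum n (0, 0)) atTop (𝓝 L) ∧
      ∀ A : ℝ, 0 ≤ A →
        (∀ w : ℂ → ℝ, (∀ z, 0 < w z) →
          MeasureTheory.LocallyIntegrable w MeasureTheory.volume →
          MeasureTheory.LocallyIntegrable (fun z => w z ^ (-(1 / ((2 : ℝ) - 1)))) MeasureTheory.volume →
          ∀ K : ℝ,
            (∀ c : ℂ, ∀ r : ℝ, 0 < r →
              ((MeasureTheory.volume (Metric.ball c r)).toReal⁻¹ *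
                  ∫ z in Metric.ball c r, w z) *
                ((MeasureTheory.volume (Metric.ball c r)).toReal⁻¹ *
                  ∫ z in Metric.ball c r, w z ^ (-(1 / ((2 : ℝ) - 1)))) ^ ((2 : ℝ) - 1) ≤ K) →
            ∀ f : ℂ → ℂ, ContDiff ℝ ((⊤ : ℕ∞) : WithTop ℕ∞) f → HasCompactSupport f →
              (∫⁻ z : ℂ,
                  ‖∫ ξ : ℂ,
                      Complex.exp (2 * (Real.pi : ℂ) * Complex.I *
                          ((ξ.re * z.re + ξ.im * z.im : ℝ) : ℂ)) *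
                        ((starRingEnd ℂ ξ / ξ) ^ (n : ℤ) *
                          ∫ x : ℂ,
                            Complex.exp (-(2 * (Real.pi : ℂ) * Complex.I *
                                ((x.re * ξ.re + x.im * ξ.im : ℝ) : ℂ))) * f x)‖ₑ ^ (2 : ℝ) *
                    ENNReal.ofReal (w z))
                ≤ ENNReal.ofReal ((A * |((n : ℤ) : ℝ)| * K ^ (max 1 (1 / ((2 : ℝ) - 1)))) ^ (2 : ℝ)) *
                    ∫⁻ z : ℂ, ‖f z‖ₑ ^ (2 : ℝ) * ENNReal.ofReal (w z)) →
        ‖L‖ ≤ C * (1 + A * √(1 + Real.log n)) ∧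
        (∀ (θ : ℝ × ℝ) (X : ℝ), ‖primSum n θ X‖ ≤ C * (1 + A * √(1 + Real.log n))) ∧
        ∀ T S : Finset ℂ, Disjoint T S → (∀ x ∈ T ∪ S, ∀ y ∈ T ∪ S, x ≠ y → 1 ≤ ‖x - y‖) →
          ∀ a : ℂ → ℂ,
            ∑ t ∈ T, ‖∑ s ∈ S, (starRingEnd ℂ (t - s) / (t - s)) ^ n /
                ((‖t - s‖ ^ 2 : ℝ) : ℂ) * a s‖ ^ 2 ≤
              C ^ 2 * (1 + A ^ 2 * (1 + Real.log n)) * ∑ s ∈ S, ‖a s‖ ^ 2 := by
  refine ⟨33 * (240 * 13449 ^ 2), by norm_num, fun n hn => ?_⟩
  obtain ⟨L, hL⟩ := primSum_tendsto n hn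
  refine ⟨L, hL, fun A hA hI => ?_⟩
  have hI' : Ineq n A := fun w hw h1 h2 K hK f hf hfs => hI w hw h1 h2 K hK f hf hfs
  refine ⟨?_, primSum_bound n hn A hA hI', fun T S hd hsep a => ?_⟩
  · exact le_of_tendsto hL.norm (Eventually.of_forall fun X => primSum_bound n hn A hA hI' (0, 0) X)
  · have hlog : 0 ≤ Real.log n := Real.log_nonneg (by exact_mod_cast hn)
    refine (discrete' n hn A hA hI' T S hd hsep a).trans ?_
    have h0 : 0 ≤ ∑ s ∈ S, ‖a s‖ ^ 2 := Finset.sum_nonneg fun _ _ => by positivity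
    have h1 : 0 ≤ 1 + A ^ 2 * (1 + Real.log n) := by positivity
    exact mul_le_mul_of_nonneg_right (mul_le_mul_of_nonneg_right (by norm_num) h1) h0

end Pool.Agent.Results.MP_75bf3e_an.HeckeBarrier
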